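import Pool.Agent.H16.NV.Stm

/-! Crew NV, part ONE: with one positive barycentric coordinate `Kb d` is a simplex. -/

set_option autoImplicit false

open Set

namespace Pool.Agent.H15.NV

open Pool.Agent.H16.NV

/-- the linear part -/
noncomputable def oneLin {n : ℕ} (c : Fin n → ℝ) (e : ℝ) (he : e = 1 - ∑ i, c i) (he0 : e ≠ 0) :
    (Fin n → ℝ) ≃ₗ[ℝ] (Fin n → ℝ) where
  toFun x := x - (∑ i, x i) • c
  map_add' x y := by
    simp only [Pi.add_apply, Finset.sum_add_distrib, add_smul]
    abel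
  map_smul' r x := by
    simp only [Pi.smul_apply, smul_eq_mul, ← Finset.mul_sum, RingHom.id_apply, smul_sub, mul_smul]
  invFun y := y + ((∑ i, y i) / e) • c
  left_inv x := by
    funext j
    have h1 : ∑ i, (x - (∑ i, x i) • c) i = (∑ i, x i) * e := by
      simp only [Pi.sub_apply, Pi.smul_apply, smul_eq_mul, Finset.sum_sub_distrib, ← Finset.mul_sum]
      rw [he]; ring
    simp only [Pi.add_apply, Pi.smul_apply, smul_eq_mul]
    rw [h1, mul_div_assoc, div_self he0]
    simp only [Pi.sub_apply, Pi.smul_apply, smul_eq_mul]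
    ring
  right_inv y := by
    funext j
    have h1 : ∑ i, (y + ((∑ i, y i) / e) • c) i = (∑ i, y i) / e := by
      simp only [Pi.add_apply, Pi.smul_apply, smul_eq_mul, Finset.sum_add_distrib, ← Finset.mul_sum]
      have : ∑ i, c i = 1 - e := by rw [he]; ring
      rw [this]; field_simp; ring
    simp only [Pi.sub_apply, Pi.smul_apply, smul_eq_mul]
    rw [h1]
    simp only [Pi.add_apply, Pi.smul_apply, smul_eq_mul]
    ring

/-- the affine equivalence `x ↦ x + (1 - ∑ x) c` -/
noncomputable def oneAff {n : ℕ} (c : Fin n → ℝ) (e : ℝ) (he : e = 1 - ∑ i, c i) (he0 : e ≠ 0) :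
    (Fin n → ℝ) ≃ᵃ[ℝ] (Fin n → ℝ) where
  toFun x := x + (1 - ∑ i, x i) • c
  invFun y := y - ((1 - ∑ i, y i) / e) • c
  left_inv x := by
    funext j
    have h1 : 1 - ∑ i, (x + (1 - ∑ i, x i) • c) i = (1 - ∑ i, x i) * e := by
      simp only [Pi.add_apply, Pi.smul_apply, smul_eq_mul, Finset.sum_add_distrib, ← Finset.mul_sum]
      rw [he]; ring
    simp only [Pi.sub_apply, Pi.smul_apply, smul_eq_mul]
    rw [h1, mul_div_assoc, div_self he0]
    simp only [Pi.add_apply, Pi.smul_apply, smul_eq_mul]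
    ring
  right_inv y := by
    funext j
    have h1 : 1 - ∑ i, (y - ((1 - ∑ i, y i) / e) • c) i = (1 - ∑ i, y i) / e := by
      simp only [Pi.sub_apply, Pi.smul_apply, smul_eq_mul, Finset.sum_sub_distrib, ← Finset.mul_sum]
      have : ∑ i, c i = 1 - e := by rw [he]; ring
      rw [this]; field_simp; ring
    simp only [Pi.add_apply, Pi.smul_apply, smul_eq_mul]
    rw [h1]
    simp only [Pi.sub_apply, Pi.smul_apply, smul_eq_mul]
    ring
  linear := oneLin c e he he0
  map_vadd' x v := by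
    funext j
    simp only [oneLin, Equiv.coe_fn_mk, vadd_eq_add, Pi.add_apply, Pi.smul_apply, smul_eq_mul,
      LinearEquiv.coe_mk, LinearMap.coe_mk, AddHom.coe_mk, Pi.sub_apply, Finset.sum_add_distrib]
    ring

theorem oneAff_apply {n : ℕ} (c : Fin n → ℝ) (e : ℝ) (he : e = 1 - ∑ i, c i) (he0 : e ≠ 0)
    (x : Fin n → ℝ) : oneAff c e he he0 x = x + (1 - ∑ i, x i) • c := rfl

theorem t_ONE : Pool.Agent.H16.NV.S_ONE := by
  intro n d hd hneg
  have hsum : ∑ a, d a = d 0 + ∑ i : Fin n, d i.succ := Fin.sum_univ_succ d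
  have he : d 0 = 1 - ∑ i, (Fin.tail d) i := by
    have : ∑ i, (Fin.tail d) i = ∑ i : Fin n, d i.succ := rfl
    rw [this]; linarith
  have hc : ∀ i : Fin n, Fin.tail d i ≤ 0 := fun i => hneg _ (Fin.succ_ne_zero i)
  have hsc : ∑ i, (Fin.tail d) i ≤ 0 := Finset.sum_nonpos fun i _ => hc i
  have hd0 : 1 ≤ d 0 := by linarith
  have he0 : d 0 ≠ 0 := by linarith
  refine ⟨oneAff (Fin.tail d) (d 0) he he0, ?_⟩
  ext y
  constructor
  · rintro ⟨s, hs0, hs⟩
    have h0 : s * d 0 ≤ 1 - ∑ i, y i := by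
      have := hs 0
      simpa [bc] using this
    have hi : ∀ i : Fin n, s * Fin.tail d i ≤ y i := by
      intro i
      have := hs i.succ
      have h2 : Fin.tail d i = d i.succ := rfl
      rw [h2]
      simpa [bc] using this
    set s' : ℝ := (1 - ∑ i, y i) / d 0 with hs'
    have hss' : s ≤ s' := by
      rw [hs', le_div_iff₀ (by linarith)]; exact h0
    have hs'd : s' * d 0 = 1 - ∑ i, y i := by rw [hs']; field_simp
    have hsumx : ∑ i, (y - s' • Fin.tail d) i = 1 - s' := by
      simp only [Pi.sub_apply, Pi.smul_apply, smul_eq_mul, Finset.sum_sub_distrib, ← Finset.mul_sum]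
      have : ∑ i, (Fin.tail d) i = 1 - d 0 := by rw [he]; ring
      rw [this]
      linarith
    refine ⟨y - s' • Fin.tail d, ⟨?_, ?_⟩, ?_⟩
    · intro i
      simp only [Pi.sub_apply, Pi.smul_apply, smul_eq_mul]
      have h1 := hi i
      have h2 : s' * Fin.tail d i ≤ s * Fin.tail d i :=
        mul_le_mul_of_nonpos_right hss' (hc i)
      linarith
    · rw [hsumx]; linarith
    · rw [oneAff_apply, hsumx]
      funext j
      simp only [Pi.sub_apply, Pi.add_apply, Pi.smul_apply, smul_eq_mul]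
      ring
  · rintro ⟨x, ⟨hx0, hx1⟩, rfl⟩
    rw [oneAff_apply]
    refine ⟨1 - ∑ i, x i, by linarith, ?_⟩
    intro a
    refine Fin.cases ?_ ?_ a
    · simp only [bc, Fin.cons_zero, Pi.add_apply, Pi.smul_apply, smul_eq_mul,
        Finset.sum_add_distrib, ← Finset.mul_sum]
      have : ∑ i, (Fin.tail d) i = 1 - d 0 := by rw [he]; ring
      rw [this]
      apply le_of_eq; ring
    · intro i
      simp only [bc, Fin.cons_succ, Pi.add_apply, Pi.smul_apply, smul_eq_mul]
      have := hx0 i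
      have h2 : Fin.tail d i = d i.succ := rfl
      rw [h2]
      linarith

end Pool.Agent.H15.NV
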